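import Pool.Agent.LibMJ36.FFR

set_option autoImplicit false

/-! MP_ed98ad, block P6: calculus of finite free resolutions. -/

namespace Pool.Agent.LibMJ36

universe u

section
variable {R : Type u} [CommRing R]

theorem FFR.congr (d : ℕ) : ∀ (M M' : Type u) [AddCommGroup M] [Module R M] [AddCommGroup M'] [Module R M'],
    (M ≃ₗ[R] M') → FFR R d M → FFR R d M' := by
  induction d with
  | zero =>
    rintro M M' _ _ _ _ e ⟨h1, h2⟩
    exact ⟨Module.Finite.equiv e, Module.Free.of_equiv e⟩
  | succ d ih =>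
    rintro M M' _ _ _ _ e ⟨k, f, hf, hK⟩
    refine ⟨k, e.toLinearMap ∘ₗ f, e.surjective.comp hf, ?_⟩
    have h1 : LinearMap.ker (e.toLinearMap ∘ₗ f) = LinearMap.ker f := by
      ext x
      simp
    rw [h1]
    exact hK

theorem FFR.ker_comp_equiv (d : ℕ) {F F' M : Type u} [AddCommGroup F] [Module R F] [AddCommGroup F'] [Module R F'] [AddCommGroup M] [Module R M]
    (e : F' ≃ₗ[R] F) (f : F →ₗ[R] M) (hK : FFR R d (LinearMap.ker f)) : FFR R d (LinearMap.ker (f ∘ₗ e.toLinearMap)) := by
  refine FFR.congr d _ _ ?_ hK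
  have hmem : ∀ x : LinearMap.ker f, e.symm (x : F) ∈ LinearMap.ker (f ∘ₗ e.toLinearMap) := by
    intro x
    have hx : f (x : F) = 0 := x.2
    show f (e (e.symm (x : F))) = 0
    rw [e.apply_symm_apply]
    exact hx
  refine LinearEquiv.ofBijective (LinearMap.codRestrict _ (e.symm.toLinearMap ∘ₗ (LinearMap.ker f).subtype) hmem) ⟨?_, ?_⟩
  · intro x y hxy
    have h1 : e.symm (x : F) = e.symm (y : F) := congrArg (fun z : LinearMap.ker (f ∘ₗ e.toLinearMap) => (z : F')) hxy
    exact Subtype.ext (e.symm.injective h1)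
  · rintro ⟨y, hy⟩
    have hy' : f (e y) = 0 := hy
    refine ⟨⟨e y, hy'⟩, Subtype.ext ?_⟩
    show e.symm (e y) = y
    exact e.symm_apply_apply y

/-- A cover by a finite free module. -/
theorem FFR.cover (d : ℕ) (F M : Type u) [AddCommGroup F] [Module R F] [Module.Finite R F] [Module.Free R F] [AddCommGroup M] [Module R M]
    (f : F →ₗ[R] M) (hf : Function.Surjective f) (hK : FFR R d (LinearMap.ker f)) : FFR R (d + 1) M := by
  let b := Module.Free.chooseBasis R F
  let b' : Module.Basis (Fin (Fintype.card (Module.Free.ChooseBasisIndex R F))) R F := b.reindex (Fintype.equivFin _)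
  exact ⟨_, f ∘ₗ b'.equivFun.symm.toLinearMap, hf.comp b'.equivFun.symm.surjective, FFR.ker_comp_equiv d b'.equivFun.symm f hK⟩

theorem FFR.of_subsingleton (d : ℕ) (M : Type u) [AddCommGroup M] [Module R M] [Subsingleton M] : FFR R d M := by
  induction d generalizing M with
  | zero => exact ⟨inferInstance, inferInstance⟩
  | succ d ih =>
    refine ⟨0, 0, fun x => ⟨0, Subsingleton.elim _ _⟩, ?_⟩
    exact ih _

theorem FFR.succ (d : ℕ) : ∀ (M : Type u) [AddCommGroup M] [Module R M], FFR R d M → FFR R (d + 1) M := by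
  induction d with
  | zero =>
    rintro M _ _ ⟨h1, h2⟩
    refine FFR.cover 0 M M LinearMap.id Function.surjective_id ?_
    have : Subsingleton (LinearMap.ker (LinearMap.id : M →ₗ[R] M)) := by
      rw [LinearMap.ker_id]; infer_instance
    exact FFR.of_subsingleton 0 _
  | succ d ih =>
    rintro M _ _ ⟨k, f, hf, hK⟩
    exact ⟨k, f, hf, ih _ hK⟩

theorem FFR.mono {d d' : ℕ} (h : d ≤ d') (M : Type u) [AddCommGroup M] [Module R M] (hM : FFR R d M) : FFR R d' M := by
  induction h with
  | refl => exact hM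
  | step _ ih => exact FFR.succ _ _ ih

/-- Extensions. -/
theorem FFR.ext (d : ℕ) : ∀ (A B C : Type u) [AddCommGroup A] [Module R A] [AddCommGroup B] [Module R B] [AddCommGroup C] [Module R C]
    (i : A →ₗ[R] B) (p : B →ₗ[R] C), Function.Injective i → Function.Surjective p → (∀ b, p b = 0 ↔ ∃ a, i a = b) →
    FFR R d A → FFR R d C → FFR R d B := by
  induction d with
  | zero =>
    rintro A B C _ _ _ _ _ _ i p hi hp hex ⟨hA1, hA2⟩ ⟨hC1, hC2⟩
    obtain ⟨s, hs⟩ := Module.projective_lifting_property p LinearMap.id hp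
    have hs' : ∀ c, p (s c) = c := fun c => LinearMap.congr_fun hs c
    -- B ≃ A × C
    have hbij : Function.Bijective (LinearMap.coprod i s) := by
      constructor
      · rw [← LinearMap.ker_eq_bot, LinearMap.ker_eq_bot']
        rintro ⟨a, c⟩ h
        simp only [LinearMap.coprod_apply] at h
        have h1 : p (i a) = 0 := (hex _).2 ⟨a, rfl⟩
        have h2 : c = 0 := by
          have := congrArg p h
          rw [map_add, h1, hs', map_zero, zero_add] at this
          exact this
        subst h2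
        rw [map_zero, add_zero] at h
        have h3 : a = 0 := hi (by rw [h, map_zero])
        rw [h3]; rfl
      · intro b
        obtain ⟨a, ha⟩ := (hex (b - s (p b))).1 (by rw [map_sub, hs', sub_self])
        refine ⟨(a, p b), ?_⟩
        simp only [LinearMap.coprod_apply, ha]
        abel
    let e : (A × C) ≃ₗ[R] B := LinearEquiv.ofBijective _ hbij
    exact ⟨Module.Finite.equiv e, Module.Free.of_equiv e⟩
  | succ d ih =>
    rintro A B C _ _ _ _ _ _ i p hi hp hex ⟨k, f, hf, hKf⟩ ⟨l, g, hg, hKg⟩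
    obtain ⟨g', hg'⟩ := Module.projective_lifting_property p g hp
    have hg'' : ∀ c, p (g' c) = g c := fun c => LinearMap.congr_fun hg' c
    refine FFR.cover d ((Fin k → R) × (Fin l → R)) B (LinearMap.coprod (i ∘ₗ f) g') ?_ ?_
    · intro b
      obtain ⟨c, hc⟩ := hg (p b)
      obtain ⟨a, ha⟩ := (hex (b - g' c)).1 (by rw [map_sub, hg'', hc, sub_self])
      obtain ⟨a', ha'⟩ := hf a
      refine ⟨(a', c), ?_⟩
      simp only [LinearMap.coprod_apply, LinearMap.coe_comp, Function.comp_apply, ha', ha]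
      abel
    · refine ih (LinearMap.ker f) _ (LinearMap.ker g)
        (LinearMap.codRestrict _ (LinearMap.inl R _ _ ∘ₗ (LinearMap.ker f).subtype) ?_)
        (LinearMap.codRestrict _ (LinearMap.snd R _ _ ∘ₗ (LinearMap.ker (LinearMap.coprod (i ∘ₗ f) g')).subtype) ?_) ?_ ?_ ?_ hKf hKg
      · intro x
        have hx := x.2
        rw [LinearMap.mem_ker] at hx ⊢
        simp [hx]
      · intro x
        have hx := x.2
        rw [LinearMap.mem_ker] at hx ⊢
        have h1 := congrArg p hx
        rw [LinearMap.coprod_apply, map_add, hg'', map_zero] at h1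
        have h2 : p ((i ∘ₗ f) x.1.1) = 0 := (hex _).2 ⟨_, rfl⟩
        rw [h2, zero_add] at h1
        exact h1
      · intro x y hxy
        have h1 := congrArg (fun z : LinearMap.ker (LinearMap.coprod (i ∘ₗ f) g') => (z : (Fin k → R) × (Fin l → R)).1) hxy
        exact Subtype.ext h1
      · rintro ⟨c, hc⟩
        obtain ⟨a, ha⟩ := (hex (g' c)).1 (by rw [hg'']; exact hc)
        obtain ⟨a', ha'⟩ := hf (-a)
        refine ⟨⟨(a', c), ?_⟩, rfl⟩
        rw [LinearMap.mem_ker, LinearMap.coprod_apply]
        simp only [LinearMap.coe_comp, Function.comp_apply, ha', map_neg, ha]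
        abel
      · rintro ⟨⟨a, c⟩, h⟩
        constructor
        · intro hc
          have hc' : c = 0 := congrArg Subtype.val hc
          subst hc'
          rw [LinearMap.mem_ker, LinearMap.coprod_apply, map_zero, add_zero] at h
          have h3 : f a = 0 := hi (by simpa using h)
          exact ⟨⟨a, h3⟩, rfl⟩
        · rintro ⟨a', ha'⟩
          have h4 := congrArg (fun z : LinearMap.ker (LinearMap.coprod (i ∘ₗ f) g') => (z : (Fin k → R) × (Fin l → R)).2) ha'
          exact Subtype.ext h4.symm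

/-- Mapping cone. -/
theorem FFR.cone (d : ℕ) (A B C : Type u) [AddCommGroup A] [Module R A] [AddCommGroup B] [Module R B] [AddCommGroup C] [Module R C]
    (i : A →ₗ[R] B) (p : B →ₗ[R] C) (hi : Function.Injective i) (hp : Function.Surjective p) (hex : ∀ b, p b = 0 ↔ ∃ a, i a = b)
    (hA : FFR R d A) (hB : FFR R (d + 1) B) : FFR R (d + 1) C := by
  obtain ⟨k, f, hf, hK⟩ := hB
  refine ⟨k, p ∘ₗ f, hp.comp hf, ?_⟩
  have hlift : ∀ x : LinearMap.ker (p ∘ₗ f), ∃ a, i a = f x := fun x => (hex _).1 x.2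
  -- the map `ker (p f) → A`
  let e : A ≃ₗ[R] LinearMap.range i := LinearEquiv.ofInjective i hi
  let q : LinearMap.ker (p ∘ₗ f) →ₗ[R] A := e.symm.toLinearMap ∘ₗ
    (LinearMap.codRestrict (LinearMap.range i) (f ∘ₗ (LinearMap.ker (p ∘ₗ f)).subtype) (fun x => hlift x))
  have hq : ∀ x, i (q x) = f x := by
    intro x
    have h1 : e (q x) = (LinearMap.codRestrict (LinearMap.range i) (f ∘ₗ (LinearMap.ker (p ∘ₗ f)).subtype) (fun x => hlift x)) x :=
      e.apply_symm_apply _
    exact congrArg Subtype.val h1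
  refine FFR.ext d (LinearMap.ker f) _ A
    (LinearMap.codRestrict _ (LinearMap.ker f).subtype ?_) q ?_ ?_ ?_ hK hA
  · intro x
    have hx := x.2
    rw [LinearMap.mem_ker] at hx ⊢
    simp [hx]
  · intro x y hxy
    exact Subtype.ext (congrArg (fun z : LinearMap.ker (p ∘ₗ f) => (z : Fin k → R)) hxy)
  · intro a
    obtain ⟨x, hx⟩ := hf (i a)
    refine ⟨⟨x, ?_⟩, hi ?_⟩
    · rw [LinearMap.mem_ker, LinearMap.comp_apply, hx]
      exact (hex _).2 ⟨a, rfl⟩
    · rw [hq, hx]
  · intro x
    constructor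
    · intro hx
      have h1 : f x = 0 := by rw [← hq, hx, map_zero]
      exact ⟨⟨x, h1⟩, rfl⟩
    · rintro ⟨a, ha⟩
      apply hi
      rw [hq, map_zero, ← ha]
      have h2 : f (a : Fin k → R) = 0 := a.2
      exact h2

/-- The quotient of a finite free module of a resolved module: if `B` has a resolution of length `d` and `F → B → C` ... -/
theorem FFR.of_exact_free (d : ℕ) (B F C : Type u) [AddCommGroup B] [Module R B] [AddCommGroup F] [Module R F] [Module.Finite R F] [Module.Free R F]
    [AddCommGroup C] [Module R C] (i : B →ₗ[R] F) (p : F →ₗ[R] C) (hi : Function.Injective i) (hp : Function.Surjective p)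
    (hex : ∀ b, p b = 0 ↔ ∃ a, i a = b) (hB : FFR R d B) : FFR R (d + 1) C := by
  refine FFR.cover d F C p hp ?_
  refine FFR.congr d B _ ?_ hB
  refine LinearEquiv.ofBijective (LinearMap.codRestrict _ i (fun a => (hex _).2 ⟨a, rfl⟩)) ⟨?_, ?_⟩
  · intro x y hxy
    exact hi (congrArg Subtype.val hxy)
  · rintro ⟨x, hx⟩
    obtain ⟨a, ha⟩ := (hex x).1 hx
    exact ⟨a, Subtype.ext ha⟩

end

end Pool.Agent.LibMJ36
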