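import Mathlib

set_option autoImplicit false

/-! MP_ed98ad, block P6: complexes of finite free modules given by matrices; homotopy and acyclicity lemma, all inside one ring. -/

namespace Pool.Agent.LibMJ36

open Matrix

universe u

section
variable {A : Type u} [CommRing A]

/-- Exactness modulo the ideal `I` at the module number `j + 1`. -/
def ExactMod (n : ℕ → ℕ) (D : ∀ i, Matrix (Fin (n i)) (Fin (n (i + 1))) A) (I : Ideal A) (j : ℕ) : Prop :=
  ∀ v : Fin (n (j + 1)) → A, (∀ i, (D j *ᵥ v) i ∈ I) → ∃ u : Fin (n (j + 1 + 1)) → A, ∀ i, v i - (D (j + 1) *ᵥ u) i ∈ I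

/-- `z` kills the homology modulo `I` at the module number `j + 1`. -/
def KillMod (n : ℕ → ℕ) (D : ∀ i, Matrix (Fin (n i)) (Fin (n (i + 1))) A) (I : Ideal A) (z : A) (j : ℕ) : Prop :=
  ∀ v : Fin (n (j + 1)) → A, (∀ i, (D j *ᵥ v) i ∈ I) → ∃ u : Fin (n (j + 1 + 1)) → A, ∀ i, z * v i - (D (j + 1) *ᵥ u) i ∈ I

theorem mulVec_mem_ideal {a b : ℕ} (D : Matrix (Fin a) (Fin b) A) (I : Ideal A) (v : Fin b → A) (hv : ∀ i, v i ∈ I) (i : Fin a) :
    (D *ᵥ v) i ∈ I := by
  simp only [Matrix.mulVec, dotProduct]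
  exact I.sum_mem (fun j _ => I.mul_mem_left _ (hv j))

/-- One step of the acyclicity lemma. -/
theorem exactMod_step (n : ℕ → ℕ) (D : ∀ i, Matrix (Fin (n i)) (Fin (n (i + 1))) A)
    (hD : ∀ i, D i * D (i + 1) = 0) (I : Ideal A) (y : A) (hy : ∀ a, y * a ∈ I → a ∈ I) (e : ℕ) (j : ℕ)
    (h1 : ExactMod n D (I ⊔ Ideal.span {y}) (j + 1)) (h2 : KillMod n D I (y ^ e) j) :
    ExactMod n D I j := by
  -- injectivity of `y` on homology
  have inj : ∀ v : Fin (n (j + 1)) → A, (∃ u : Fin (n (j + 1 + 1)) → A, ∀ i, y * v i - (D (j + 1) *ᵥ u) i ∈ I) →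
      ∃ u : Fin (n (j + 1 + 1)) → A, ∀ i, v i - (D (j + 1) *ᵥ u) i ∈ I := by
    rintro v ⟨u, hu⟩
    have hu1 : ∀ i, (D (j + 1) *ᵥ u) i ∈ I ⊔ Ideal.span {y} := by
      intro i
      have h3 : (D (j + 1) *ᵥ u) i = - (y * v i - (D (j + 1) *ᵥ u) i) + y * v i := by ring
      rw [h3]
      exact Ideal.add_mem _ (Ideal.mem_sup_left (I.neg_mem (hu i)))
        (Ideal.mem_sup_right (Ideal.mul_mem_right _ _ (Ideal.mem_span_singleton_self y)))
    obtain ⟨w, hw⟩ := h1 u hu1
    -- u i - (D w) i = a i + y * b i, a i in I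
    have hw2 : ∀ i, ∃ b : A, u i - (D (j + 1 + 1) *ᵥ w) i - y * b ∈ I := by
      intro i
      obtain ⟨a, ha, c, hc, hac⟩ := Submodule.mem_sup.1 (hw i)
      obtain ⟨b, hb⟩ := Ideal.mem_span_singleton'.1 hc
      refine ⟨b, ?_⟩
      have h4 : u i - (D (j + 1 + 1) *ᵥ w) i - y * b = a := by
        rw [← hac, ← hb]; ring
      rw [h4]; exact ha
    choose b hb using hw2
    refine ⟨b, fun i => hy _ ?_⟩
    have h5 : (D (j + 1) *ᵥ u) i = (D (j + 1) *ᵥ (fun k => u k - (D (j + 1 + 1) *ᵥ w) k - y * b k)) i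
        + (D (j + 1) *ᵥ (D (j + 1 + 1) *ᵥ w)) i + y * (D (j + 1) *ᵥ b) i := by
      have h6 : u = (fun k => u k - (D (j + 1 + 1) *ᵥ w) k - y * b k) + (D (j + 1 + 1) *ᵥ w) + y • b := by
        funext k
        simp only [Pi.add_apply, Pi.smul_apply, smul_eq_mul]; ring
      conv_lhs => rw [h6]
      rw [Matrix.mulVec_add, Matrix.mulVec_add, Matrix.mulVec_smul]
      simp only [Pi.add_apply, Pi.smul_apply, smul_eq_mul]
    have h7 : (D (j + 1) *ᵥ (D (j + 1 + 1) *ᵥ w)) i = 0 := by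
      rw [Matrix.mulVec_mulVec, hD, Matrix.zero_mulVec]; rfl
    have h8 := mulVec_mem_ideal (D (j + 1)) I _ hb i
    have h9 : y * (v i - (D (j + 1) *ᵥ b) i) = (y * v i - (D (j + 1) *ᵥ u) i)
        + (D (j + 1) *ᵥ (fun k => u k - (D (j + 1 + 1) *ᵥ w) k - y * b k)) i := by
      rw [h5, h7]; ring
    rw [h9]
    exact I.add_mem (hu i) h8
  have key : ∀ m : ℕ, ∀ v : Fin (n (j + 1)) → A, (∃ u : Fin (n (j + 1 + 1)) → A, ∀ i, y ^ m * v i - (D (j + 1) *ᵥ u) i ∈ I) →
      ∃ u : Fin (n (j + 1 + 1)) → A, ∀ i, v i - (D (j + 1) *ᵥ u) i ∈ I := by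
    intro m
    induction m with
    | zero => intro v h; simpa using h
    | succ m ih =>
      intro v h
      refine inj v (ih (fun i => y * v i) ?_)
      obtain ⟨u, hu⟩ := h
      refine ⟨u, fun i => ?_⟩
      have := hu i
      rw [pow_succ] at this
      simpa [mul_assoc] using this
  intro v hv
  exact key e v (h2 v hv)

/-- The ideal generated by `s, x 0, ..., x (k - 1)`. -/
def idealUpto (s : A) {N : ℕ} (x : Fin N → A) (k : ℕ) : Ideal A :=
  Ideal.span (insert s {a | ∃ i : Fin N, i.val < k ∧ a = x i})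

theorem idealUpto_succ (s : A) {N : ℕ} (x : Fin N → A) (k : Fin N) :
    idealUpto s x (k.val + 1) = idealUpto s x k.val ⊔ Ideal.span {x k} := by
  rw [idealUpto, idealUpto, ← Ideal.span_union]
  congr 1
  ext a
  simp only [Set.mem_insert_iff, Set.mem_ofPred_eq, Set.mem_union, Set.mem_singleton_iff]
  constructor
  · rintro (h | ⟨i, hi, h⟩)
    · exact Or.inl (Or.inl h)
    · rcases Nat.lt_succ_iff_lt_or_eq.1 hi with h1 | h1
      · exact Or.inl (Or.inr ⟨i, h1, h⟩)
      · have : i = k := Fin.ext h1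
        subst this
        exact Or.inr h
  · rintro ((h | ⟨i, hi, h⟩) | h)
    · exact Or.inl h
    · exact Or.inr ⟨i, by omega, h⟩
    · exact Or.inr ⟨k, by omega, h⟩

/-- Acyclicity lemma: a complex of length `N`, whose homology modulo `(s, x_0, ..., x_{k-1})` is killed by powers of all `x_i`,
where `x_0, ..., x_{N-1}` is a regular sequence modulo `s`, is exact modulo `s`. -/
theorem acyclic (N : ℕ) (n : ℕ → ℕ) (D : ∀ i, Matrix (Fin (n i)) (Fin (n (i + 1))) A)
    (hD : ∀ i, D i * D (i + 1) = 0) (hN : ∀ i, N < i → n i = 0) (s : A) (x : Fin N → A) (e : ℕ)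
    (hreg : ∀ k : Fin N, ∀ a, x k * a ∈ idealUpto s x k.val → a ∈ idealUpto s x k.val)
    (hkill : ∀ k : Fin N, ∀ j, KillMod n D (idealUpto s x k.val) (x k ^ e) j) :
    ∀ j, ExactMod n D (idealUpto s x 0) j := by
  have key : ∀ d k : ℕ, d + k = N → ∀ j, k ≤ j → ExactMod n D (idealUpto s x k) j := by
    intro d
    induction d with
    | zero =>
      intro k hk j hj v _
      have h0 : n (j + 1) = 0 := hN _ (by omega)
      refine ⟨0, fun i => ?_⟩
      exact absurd i.isLt (by omega)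
    | succ d ih =>
      intro k hk j hj
      have hkN : k < N := by omega
      have h1 := ih (k + 1) (by omega) (j + 1) (by omega)
      have h2 := idealUpto_succ s x ⟨k, hkN⟩
      simp only at h2
      rw [h2] at h1
      exact exactMod_step n D hD _ (x ⟨k, hkN⟩) (hreg ⟨k, hkN⟩) e j h1 (hkill ⟨k, hkN⟩ j)
  intro j
  exact key N 0 (by omega) j (Nat.zero_le j)

end

end Pool.Agent.LibMJ36
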