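import Mathlib

set_option autoImplicit false

/-! MP_ed98ad, block P6: maximal minors of a presentation matrix. -/

namespace Pool.Agent.LibMJ36

open Matrix

universe u v w

section
variable {A : Type u} [CommRing A] {T : Type v} [Fintype T] [DecidableEq T] {J : Type w} [Fintype J] [DecidableEq J]

/-- Maximal minors kill the cokernel. -/
theorem minor_kill (W : Matrix T J A) (f : T → J) (a : T → A) :
    ∃ c : J → A, W *ᵥ c = (W.submatrix id f).det • a := by
  have h1 : (W.submatrix id f) *ᵥ ((W.submatrix id f).adjugate *ᵥ a) = (W.submatrix id f).det • a := by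
    rw [Matrix.mulVec_mulVec, Matrix.mul_adjugate, Matrix.smul_mulVec, Matrix.one_mulVec]
  refine ⟨fun j => ∑ t : T, if f t = j then ((W.submatrix id f).adjugate *ᵥ a) t else 0, ?_⟩
  rw [← h1]
  funext i
  simp only [Matrix.mulVec, dotProduct, Matrix.submatrix_apply, id]
  simp only [Finset.mul_sum]
  rw [Finset.sum_comm]
  refine Finset.sum_congr rfl (fun t _ => ?_)
  simp [Finset.mul_sum]

omit [DecidableEq J] in
/-- Expansion of the determinant of a product of rectangular matrices. -/
theorem det_mul_mem (W : Matrix T J A) (C : Matrix J T A) :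
    (W * C).det ∈ Ideal.span (Set.range (fun f : T → J => (W.submatrix id f).det)) := by
  have h1 : (W * C).det = (W * C).transpose.det := (Matrix.det_transpose _).symm
  have h2 : (W * C).transpose = fun t : T => ∑ j : J, (C j t) • (fun i => W i j) := by
    ext t i
    simp only [Matrix.transpose_apply, Matrix.mul_apply, Finset.sum_apply, Pi.smul_apply, smul_eq_mul]
    exact Finset.sum_congr rfl (fun j _ => mul_comm _ _)
  have h3 : (W * C).det = Matrix.detRowAlternating (fun t : T => ∑ j : J, (C j t) • (fun i => W i j)) := by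
    rw [h1, ← h2]; rfl
  rw [h3]
  have h4 := (Matrix.detRowAlternating (n := T) (R := A)).toMultilinearMap.map_sum
    (fun (t : T) (j : J) => (C j t) • (fun i => W i j))
  have h5 : Matrix.detRowAlternating (fun t : T => ∑ j : J, (C j t) • (fun i => W i j))
      = ∑ r : T → J, Matrix.detRowAlternating (fun t : T => (C (r t) t) • (fun i => W i (r t))) := h4
  rw [h5]
  refine Ideal.sum_mem _ (fun r _ => ?_)
  have h6 : Matrix.detRowAlternating (fun t : T => (C (r t) t) • (fun i => W i (r t)))
      = (∏ t, C (r t) t) • Matrix.detRowAlternating (fun t : T => (fun i => W i (r t))) :=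
    (Matrix.detRowAlternating (n := T) (R := A)).toMultilinearMap.map_smul_univ (fun t => C (r t) t) (fun t => (fun i => W i (r t)))
  rw [h6, smul_eq_mul]
  refine Ideal.mul_mem_left _ _ (Ideal.subset_span ⟨r, ?_⟩)
  show (W.submatrix id r).det = Matrix.detRowAlternating (fun t : T => (fun i => W i (r t)))
  rw [← Matrix.det_transpose]
  rfl

/-- If `z` kills the cokernel modulo `s`, then a power of `z` is in the ideal of maximal minors and `s`. -/
theorem pow_mem_minors (W : Matrix T J A) (s z : A)
    (h : ∀ a : T → A, ∃ (c : J → A) (b : T → A), z • a = W *ᵥ c + s • b) :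
    z ^ (Fintype.card T) ∈ Ideal.span (Set.range (fun f : T → J => (W.submatrix id f).det)) ⊔ Ideal.span {s} := by
  choose c b hcb using fun t : T => h (Pi.single t 1)
  let C : Matrix J T A := Matrix.of (fun j t => c t j)
  let B : Matrix T T A := Matrix.of (fun i t => b t i)
  have h1 : z • (1 : Matrix T T A) = W * C + s • B := by
    ext i t
    have h2 := congrFun (hcb t) i
    simp only [Pi.smul_apply, smul_eq_mul, Pi.add_apply, Matrix.mulVec, dotProduct, Pi.single_apply] at h2
    simp only [Matrix.smul_apply, smul_eq_mul, Matrix.add_apply, Matrix.mul_apply, Matrix.one_apply, C, B, Matrix.of_apply]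
    rw [← h2]
  have h3 : z ^ (Fintype.card T) = (W * C + s • B).det := by
    rw [← h1, Matrix.det_smul, Matrix.det_one, mul_one]
  have h4 : (W * C + s • B).det - (W * C).det ∈ Ideal.span {s} := by
    rw [← Ideal.Quotient.eq, RingHom.map_det, RingHom.map_det]
    congr 1
    ext i t
    simp only [RingHom.mapMatrix_apply, Matrix.map_apply, Matrix.add_apply, Matrix.smul_apply, smul_eq_mul, map_add, map_mul]
    have h5 : (Ideal.Quotient.mk (Ideal.span {s})) s = 0 := Ideal.Quotient.eq_zero_iff_mem.2 (Ideal.mem_span_singleton_self s)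
    rw [h5]; ring
  have h6 : z ^ (Fintype.card T) = (W * C).det + ((W * C + s • B).det - (W * C).det) := by
    rw [h3]; ring
  rw [h6]
  exact Ideal.add_mem _ (Ideal.mem_sup_left (det_mul_mem W C)) (Ideal.mem_sup_right h4)

end

end Pool.Agent.LibMJ36
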