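import Pool.Agent.LibMJ36.Homot
import Pool.Agent.LibMJ36.Minors

set_option autoImplicit false

/-! MP_ed98ad, block P6: generic perfection in matrix form. -/

namespace Pool.Agent.LibMJ36

open Matrix

universe u v

section
variable {R : Type u} [CommRing R] {A : Type v} [CommRing A]

/-- A finite free resolution of length at most `N` of the cokernel of `W`, in matrix form. The last four fields identify the cokernel of
`D 0` with the cokernel of `W`. -/
structure MatRes {T J : Type} [Fintype T] [DecidableEq T] [Fintype J] (N : ℕ) (W : Matrix T J R) where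
  n : ℕ → ℕ
  D : ∀ i, Matrix (Fin (n i)) (Fin (n (i + 1))) R
  n_zero : ∀ i, N < i → n i = 0
  cpx : ∀ i, D i * D (i + 1) = 0
  exact : ∀ j, ExactAt n D j
  α : Matrix T (Fin (n 0)) R
  β : Matrix (Fin (n 0)) T R
  X1 : Matrix J (Fin (n 1)) R
  X2 : Matrix (Fin (n 1)) J R
  X3 : Matrix J T R
  h1 : α * D 0 = W * X1
  h2 : β * W = D 0 * X2
  h3 : α * β = 1 + W * X3
  X4 : Matrix (Fin (n 1)) (Fin (n 0)) R
  h4 : β * α = 1 + D 0 * X4

/-- The core theorem (generic perfection) for one specialization `φ`. -/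
theorem core {T J : Type} [Fintype T] [DecidableEq T] [Fintype J] [DecidableEq J] (N : ℕ) (W : Matrix T J R) (F : MatRes N W) (φ : R →+* A)
    (s : A) (hs : ∀ a : A, s * a = 0 → a = 0) (x : Fin N → A)
    (hreg : ∀ k : Fin N, ∀ a, x k * a ∈ idealUpto s x k.val → a ∈ idealUpto s x k.val)
    (hfin : ∀ k : Fin N, ∃ e : ℕ, ∀ a : T → A, ∃ (c : J → A) (b : T → A), (x k ^ e) • a = (W.map φ) *ᵥ c + s • b)
    (a : T → A) (c : J → A) (hac : s • a = (W.map φ) *ᵥ c) : ∃ c' : J → A, (W.map φ) *ᵥ c' = a := by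
  -- the exponent
  choose e he using hfin
  set E : ℕ := (∑ k : Fin N, e k) * Fintype.card T with hE
  have hmem : ∀ k : Fin N, x k ^ E ∈
      Ideal.span (Set.range (fun f : T → J => ((W.map φ).submatrix id f).det)) ⊔ Ideal.span {s} := by
    intro k
    have h5 := pow_mem_minors (W.map φ) s (x k ^ e k) (he k)
    rw [← pow_mul] at h5
    have h6 : e k * Fintype.card T ≤ E :=
      Nat.mul_le_mul_right _ (Finset.single_le_sum (f := e) (fun _ _ => Nat.zero_le _) (Finset.mem_univ k))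
    obtain ⟨r, hr⟩ := Nat.exists_eq_add_of_le h6
    rw [hr, pow_add]
    exact Ideal.mul_mem_right _ _ h5
  -- minors kill the cokernel of `D 0` over `R`
  have hδ : ∀ f : T → J, ∀ a : Fin (F.n 0) → R, ∃ u : Fin (F.n 1) → R, F.D 0 *ᵥ u = (W.submatrix id f).det • a := by
    intro f a
    obtain ⟨c, hc⟩ := minor_kill W f (F.α *ᵥ a)
    refine ⟨F.X2 *ᵥ c - (W.submatrix id f).det • (F.X4 *ᵥ a), ?_⟩
    rw [Matrix.mulVec_sub, Matrix.mulVec_mulVec, ← F.h2, ← Matrix.mulVec_mulVec, hc, Matrix.mulVec_smul, Matrix.mulVec_mulVec, F.h4,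
      Matrix.mulVec_smul, Matrix.mulVec_mulVec, Matrix.add_mulVec, Matrix.one_mulVec, smul_add]
    abel
  have hkill : ∀ k : Fin N, ∀ j, KillMod F.n (fun i => (F.D i).map φ) (idealUpto s x k.val) (x k ^ E) j := by
    intro k j
    refine killMod_of_mem_span F.n (fun i => (F.D i).map φ) (idealUpto s x k.val) j
      (Set.range (fun f : T → J => ((W.map φ).submatrix id f).det)) ?_ (x k ^ E) ?_
    · rintro _ ⟨f, rfl⟩
      have h7 : ((W.map φ).submatrix id f).det = φ ((W.submatrix id f).det) := by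
        rw [RingHom.map_det]; rfl
      simp only [h7]
      exact killMod_of_kill F.n F.D F.cpx F.exact φ _ (hδ f) _ j
    · have h8 : Ideal.span {s} ≤ idealUpto s x k.val := by
        rw [Ideal.span_singleton_le_iff_mem]
        exact Ideal.subset_span (Set.mem_insert _ _)
      exact sup_le_sup_left h8 _ (hmem k)
  have hcpx : ∀ i, (F.D i).map φ * (F.D (i + 1)).map φ = 0 := by
    intro i
    rw [← Matrix.map_mul, F.cpx]
    ext a b
    simp
  have hac0 := acyclic N F.n (fun i => (F.D i).map φ) hcpx F.n_zero s x E hreg hkill 0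
  -- transfer
  have h1' : F.α.map φ * (F.D 0).map φ = W.map φ * F.X1.map φ := by
    rw [← Matrix.map_mul, F.h1, Matrix.map_mul]
  have h2' : F.β.map φ * W.map φ = (F.D 0).map φ * F.X2.map φ := by
    rw [← Matrix.map_mul, F.h2, Matrix.map_mul]
  have h3' : F.α.map φ * F.β.map φ = 1 + W.map φ * F.X3.map φ := by
    rw [← Matrix.map_mul, F.h3, Matrix.map_add φ (fun a b => map_add φ a b), Matrix.map_mul, Matrix.map_one φ (map_zero φ) (map_one φ)]
  -- `s β a` is in the image of `D 0`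
  have h8 : s • (F.β.map φ *ᵥ a) = (F.D 0).map φ *ᵥ (F.X2.map φ *ᵥ c) := by
    rw [← Matrix.mulVec_smul, hac, Matrix.mulVec_mulVec, h2', Matrix.mulVec_mulVec]
  have h9 : ∀ i, ((F.D 0).map φ *ᵥ (F.X2.map φ *ᵥ c)) i ∈ idealUpto s x 0 := by
    intro i
    rw [← h8]
    exact Ideal.mul_mem_right _ _ (Ideal.subset_span (Set.mem_insert _ _))
  obtain ⟨w, hw⟩ := hac0 (F.X2.map φ *ᵥ c) h9
  have hI0 : idealUpto s x 0 = Ideal.span {s} := by
    rw [idealUpto]
    congr 1
    ext z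
    simp
  have hw2 : ∀ i, ∃ b : A, (F.X2.map φ *ᵥ c) i - ((F.D 1).map φ *ᵥ w) i = s * b := by
    intro i
    have h10 := hw i
    rw [hI0] at h10
    obtain ⟨b, hb⟩ := Ideal.mem_span_singleton'.1 h10
    exact ⟨b, by rw [mul_comm]; exact hb.symm⟩
  choose b hb using hw2
  have h11 : F.X2.map φ *ᵥ c = (F.D 1).map φ *ᵥ w + s • b := by
    funext i
    have := hb i
    simp only [Pi.add_apply, Pi.smul_apply, smul_eq_mul]
    rw [← this]; ring
  have h12 : s • (F.β.map φ *ᵥ a) = s • ((F.D 0).map φ *ᵥ b) := by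
    rw [h8, h11, Matrix.mulVec_add, Matrix.mulVec_mulVec]
    have := hcpx 0
    rw [this, Matrix.zero_mulVec, zero_add, Matrix.mulVec_smul]
  have h13 : F.β.map φ *ᵥ a = (F.D 0).map φ *ᵥ b := by
    funext i
    have h14 := congrFun h12 i
    simp only [Pi.smul_apply, smul_eq_mul] at h14
    have h15 : s * ((F.β.map φ *ᵥ a) i - ((F.D 0).map φ *ᵥ b) i) = 0 := by
      rw [mul_sub, h14, sub_self]
    exact sub_eq_zero.1 (hs _ h15)
  refine ⟨F.X1.map φ *ᵥ b - F.X3.map φ *ᵥ a, ?_⟩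
  have h16 : F.α.map φ *ᵥ (F.β.map φ *ᵥ a) = a + W.map φ *ᵥ (F.X3.map φ *ᵥ a) := by
    rw [Matrix.mulVec_mulVec, h3', Matrix.add_mulVec, Matrix.one_mulVec, Matrix.mulVec_mulVec]
  have h17 : F.α.map φ *ᵥ (F.β.map φ *ᵥ a) = W.map φ *ᵥ (F.X1.map φ *ᵥ b) := by
    rw [h13, Matrix.mulVec_mulVec, h1', Matrix.mulVec_mulVec]
  rw [Matrix.mulVec_sub, ← h17, h16]
  abel

end

end Pool.Agent.LibMJ36
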