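import Pool.Agent.LibMJ36.Core

set_option autoImplicit false

/-! MP_ed98ad, block P6: finite free resolutions as a predicate, and extraction of matrices. -/

namespace Pool.Agent.LibMJ36

open Matrix

universe u v

/-- `M` has a resolution of length at most `d` by finite free modules. -/
def FFR (R : Type u) [CommRing R] : ℕ → (M : Type u) → [AddCommGroup M] → [Module R M] → Prop
  | 0, M, _, _ => Module.Finite R M ∧ Module.Free R M
  | d + 1, M, _, _ => ∃ (k : ℕ) (f : (Fin k → R) →ₗ[R] M), Function.Surjective f ∧ FFR R d (LinearMap.ker f)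

section
variable {R : Type u} [CommRing R]

theorem exists_factor' {a b c : Type} [Fintype b] (D : Matrix a b R) (M : Matrix a c R)
    (h : ∀ i : c, ∃ u : b → R, D *ᵥ u = fun k => M k i) : ∃ H : Matrix b c R, D * H = M := by
  choose u hu using h
  refine ⟨Matrix.of (fun k i => u i k), ?_⟩
  ext k i
  have := congrFun (hu i) k
  simpa [Matrix.mul_apply, Matrix.mulVec, dotProduct] using this

/-- Extraction of matrices from the predicate `FFR`. -/
theorem ffr_matrices (d : ℕ) : ∀ (M : Type u) [AddCommGroup M] [Module R M], FFR R d M →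
    ∃ (n : ℕ → ℕ) (D : ∀ i, Matrix (Fin (n i)) (Fin (n (i + 1))) R) (π : (Fin (n 0) → R) →ₗ[R] M),
      (∀ i, d < i → n i = 0) ∧ (∀ i, D i * D (i + 1) = 0) ∧ (∀ j, ExactAt n D j) ∧ Function.Surjective π ∧
        (∀ v, π v = 0 ↔ ∃ u, D 0 *ᵥ u = v) := by
  induction d with
  | zero =>
    rintro M _ _ ⟨h1, h2⟩
    let b := Module.Free.chooseBasis R M
    let k := Fintype.card (Module.Free.ChooseBasisIndex R M)
    let b' : Module.Basis (Fin k) R M := b.reindex (Fintype.equivFin _)
    refine ⟨fun i => if i = 0 then k else 0, fun i => 0, b'.equivFun.symm.toLinearMap, ?_, ?_, ?_, ?_, ?_⟩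
    · intro i hi
      simp only [if_neg (show i ≠ 0 by omega)]
    · intro i; exact Matrix.zero_mul _
    · intro j v _
      have h0 : (if j + 1 = 0 then k else 0) = 0 := by simp
      refine ⟨0, ?_⟩
      funext i
      exact absurd i.isLt (by simp)
    · exact b'.equivFun.symm.surjective
    · intro v
      constructor
      · intro hv
        refine ⟨0, ?_⟩
        have : v = 0 := by
          have h3 : b'.equivFun.symm v = b'.equivFun.symm 0 := by rw [map_zero]; exact hv
          exact b'.equivFun.symm.injective h3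
        rw [this, Matrix.mulVec_zero]
      · rintro ⟨u, hu⟩
        rw [← hu]
        simp
  | succ d ih =>
    rintro M _ _ ⟨k, f, hf, hK⟩
    obtain ⟨n, D, π, hn, hD, hex, hπ, hker⟩ := ih (LinearMap.ker f) hK
    let n' : ℕ → ℕ := fun i => Nat.casesOn i k n
    let D0 : Matrix (Fin k) (Fin (n 0)) R := LinearMap.toMatrix' ((LinearMap.ker f).subtype ∘ₗ π)
    let D' : ∀ i, Matrix (Fin (n' i)) (Fin (n' (i + 1))) R := fun i => match i with
      | 0 => D0
      | i + 1 => D i
    have hD0 : ∀ u, D0 *ᵥ u = (π u : Fin k → R) := by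
      intro u
      show (LinearMap.toMatrix' ((LinearMap.ker f).subtype ∘ₗ π)) *ᵥ u = _
      rw [LinearMap.toMatrix'_mulVec]
      rfl
    refine ⟨n', D', f, ?_, ?_, ?_, hf, ?_⟩
    · intro i hi
      cases i with
      | zero => omega
      | succ i => exact hn i (by omega)
    · intro i
      cases i with
      | zero =>
        show D0 * D 0 = 0
        ext a b
        have h3 : D0 *ᵥ (D 0 *ᵥ (Pi.single b 1)) = 0 := by
          rw [hD0, (hker _).2 ⟨_, rfl⟩]; rfl
        rw [Matrix.mulVec_mulVec] at h3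
        have h4 := congrFun h3 a
        simpa using h4
      | succ i => exact hD i
    · intro j
      cases j with
      | zero =>
        intro v hv
        have h3 : (π v : Fin k → R) = 0 := by
          rw [← hD0]; exact hv
        have h4 : π v = 0 := Subtype.ext h3
        exact (hker v).1 h4
      | succ j => exact hex j
    · intro v
      constructor
      · intro hv
        obtain ⟨u, hu⟩ := hπ ⟨v, hv⟩
        refine ⟨u, ?_⟩
        show D0 *ᵥ u = v
        rw [hD0, hu]
      · rintro ⟨u, hu⟩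
        have h3 : D0 *ᵥ u = v := hu
        rw [← h3, hD0]
        exact (π u).2

/-- A finite free resolution of a module presented by the matrix `W` gives a `MatRes`. -/
theorem matRes_of_ffr {T J : Type} [Fintype T] [DecidableEq T] [Fintype J] [DecidableEq J] (N : ℕ) (W : Matrix T J R)
    (M : Type u) [AddCommGroup M] [Module R M] (hM : FFR R N M) (q : (T → R) →ₗ[R] M) (hq : Function.Surjective q)
    (hker : ∀ a, q a = 0 ↔ ∃ c, W *ᵥ c = a) : Nonempty (MatRes N W) := by
  obtain ⟨n, D, π, hn, hD, hex, hπ, hkπ⟩ := ffr_matrices N M hM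
  -- α
  have hα : ∃ α : Matrix T (Fin (n 0)) R, ∀ v, q (α *ᵥ v) = π v := by
    choose a ha using fun i : Fin (n 0) => hq (π (Pi.single i 1))
    refine ⟨Matrix.of (fun t i => a i t), fun v => ?_⟩
    have h1 : (q ∘ₗ (Matrix.of (fun t i => a i t)).mulVecLin) = π := by
      apply LinearMap.pi_ext'
      intro i
      apply LinearMap.ext_ring
      simp only [LinearMap.coe_comp, Function.comp_apply, LinearMap.coe_single, Matrix.mulVecLin_apply]
      rw [Matrix.mulVec_single_one]
      exact ha i
    exact LinearMap.congr_fun h1 v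
  have hβ : ∃ β : Matrix (Fin (n 0)) T R, ∀ v, π (β *ᵥ v) = q v := by
    choose a ha using fun i : T => hπ (q (Pi.single i 1))
    refine ⟨Matrix.of (fun t i => a i t), fun v => ?_⟩
    have h1 : (π ∘ₗ (Matrix.of (fun t i => a i t)).mulVecLin) = q := by
      apply LinearMap.pi_ext'
      intro i
      apply LinearMap.ext_ring
      simp only [LinearMap.coe_comp, Function.comp_apply, LinearMap.coe_single, Matrix.mulVecLin_apply]
      rw [Matrix.mulVec_single_one]
      exact ha i
    exact LinearMap.congr_fun h1 v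
  obtain ⟨α, hα⟩ := hα
  obtain ⟨β, hβ⟩ := hβ
  obtain ⟨X1, h1⟩ : ∃ X1 : Matrix J (Fin (n 1)) R, W * X1 = α * D 0 := by
    apply exists_factor'
    intro i
    obtain ⟨c, hc⟩ := (hker (α *ᵥ (D 0 *ᵥ Pi.single i 1))).1 (by rw [hα]; exact (hkπ _).2 ⟨_, rfl⟩)
    refine ⟨c, ?_⟩
    rw [hc, Matrix.mulVec_mulVec, Matrix.mulVec_single_one]
    rfl
  obtain ⟨X2, h2⟩ : ∃ X2 : Matrix (Fin (n 1)) J R, D 0 * X2 = β * W := by
    apply exists_factor'
    intro i
    obtain ⟨c, hc⟩ := (hkπ (β *ᵥ (W *ᵥ Pi.single i 1))).1 (by rw [hβ]; exact (hker _).2 ⟨_, rfl⟩)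
    refine ⟨c, ?_⟩
    rw [hc, Matrix.mulVec_mulVec, Matrix.mulVec_single_one]
    rfl
  obtain ⟨X3, h3⟩ : ∃ X3 : Matrix J T R, W * X3 = α * β - 1 := by
    apply exists_factor'
    intro i
    obtain ⟨c, hc⟩ := (hker (α *ᵥ (β *ᵥ Pi.single i 1) - Pi.single i 1)).1 (by rw [map_sub, hα, hβ, sub_self])
    refine ⟨c, ?_⟩
    rw [hc, Matrix.mulVec_mulVec, Matrix.mulVec_single_one]
    funext k
    simp [Matrix.one_apply, Pi.single_apply]
  obtain ⟨X4, h4⟩ : ∃ X4 : Matrix (Fin (n 1)) (Fin (n 0)) R, D 0 * X4 = β * α - 1 := by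
    apply exists_factor'
    intro i
    obtain ⟨c, hc⟩ := (hkπ (β *ᵥ (α *ᵥ Pi.single i 1) - Pi.single i 1)).1 (by rw [map_sub, hβ, hα, sub_self])
    refine ⟨c, ?_⟩
    rw [hc, Matrix.mulVec_mulVec, Matrix.mulVec_single_one]
    funext k
    simp [Matrix.one_apply, Pi.single_apply]
  exact ⟨{ n := n, D := D, n_zero := hn, cpx := hD, exact := hex, α := α, β := β, X1 := X1, X2 := X2, X3 := X3, X4 := X4,
           h1 := h1.symm, h2 := h2.symm, h3 := by rw [h3]; abel, h4 := by rw [h4]; abel }⟩

end

end Pool.Agent.LibMJ36
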