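import Pool.Agent.LibMJ36.Acyc

set_option autoImplicit false

/-! MP_ed98ad, block P6: multiplication by an element killing the cokernel is null homotopic, so it kills the homology after base change. -/

namespace Pool.Agent.LibMJ36

open Matrix

universe u v

section
variable {R : Type u} [CommRing R] {A : Type v} [CommRing A]

/-- Exactness (over `R`) at the module number `j + 1`. -/
def ExactAt (n : ℕ → ℕ) (D : ∀ i, Matrix (Fin (n i)) (Fin (n (i + 1))) R) (j : ℕ) : Prop :=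
  ∀ v : Fin (n (j + 1)) → R, D j *ᵥ v = 0 → ∃ u : Fin (n (j + 1 + 1)) → R, D (j + 1) *ᵥ u = v

/-- Columns in the image give a matrix factorization. -/
theorem exists_factor {a b c : ℕ} (D : Matrix (Fin a) (Fin b) R) (M : Matrix (Fin a) (Fin c) R)
    (h : ∀ i : Fin c, ∃ u : Fin b → R, D *ᵥ u = fun k => M k i) : ∃ H : Matrix (Fin b) (Fin c) R, D * H = M := by
  choose u hu using h
  refine ⟨Matrix.of (fun k i => u i k), ?_⟩
  ext k i
  have := congrFun (hu i) k
  simpa [Matrix.mul_apply, Matrix.mulVec, dotProduct] using this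

theorem homotopy (n : ℕ → ℕ) (D : ∀ i, Matrix (Fin (n i)) (Fin (n (i + 1))) R)
    (hD : ∀ i, D i * D (i + 1) = 0) (hex : ∀ j, ExactAt n D j) (δ : R)
    (h0 : ∀ a : Fin (n 0) → R, ∃ u : Fin (n 1) → R, D 0 *ᵥ u = δ • a) (j : ℕ) :
    ∃ (H : Matrix (Fin (n (j + 1))) (Fin (n j)) R) (H' : Matrix (Fin (n (j + 1 + 1))) (Fin (n (j + 1))) R),
      D (j + 1) * H' + H * D j = δ • (1 : Matrix (Fin (n (j + 1))) (Fin (n (j + 1))) R) := by
  have step : ∀ (j : ℕ) (H : Matrix (Fin (n (j + 1))) (Fin (n j)) R),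
      D j * (δ • (1 : Matrix (Fin (n (j + 1))) (Fin (n (j + 1))) R) - H * D j) = 0 →
      ∃ H' : Matrix (Fin (n (j + 1 + 1))) (Fin (n (j + 1))) R,
        D (j + 1) * H' + H * D j = δ • (1 : Matrix (Fin (n (j + 1))) (Fin (n (j + 1))) R) := by
    intro j H hH
    have h1 : ∃ H' : Matrix (Fin (n (j + 1 + 1))) (Fin (n (j + 1))) R,
        D (j + 1) * H' = δ • (1 : Matrix (Fin (n (j + 1))) (Fin (n (j + 1))) R) - H * D j := by
      apply exists_factor
      intro i
      apply hex j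
      have h2 := congrArg (fun M : Matrix (Fin (n j)) (Fin (n (j + 1))) R => fun k => M k i) hH
      funext k
      have h3 := congrFun h2 k
      simpa [Matrix.mul_apply, Matrix.mulVec, dotProduct] using h3
    obtain ⟨H', hH'⟩ := h1
    exact ⟨H', by rw [hH']; abel⟩
  induction j with
  | zero =>
    obtain ⟨H, hH⟩ : ∃ H : Matrix (Fin (n 1)) (Fin (n 0)) R, D 0 * H = δ • (1 : Matrix (Fin (n 0)) (Fin (n 0)) R) := by
      apply exists_factor
      intro i
      obtain ⟨u, hu⟩ := h0 (fun k => (1 : Matrix (Fin (n 0)) (Fin (n 0)) R) k i)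
      refine ⟨u, ?_⟩
      rw [hu]
      funext k
      simp
    obtain ⟨H', hH'⟩ := step 0 H (by
      rw [Matrix.mul_sub, ← Matrix.mul_assoc, hH]
      simp)
    exact ⟨H, H', hH'⟩
  | succ j ih =>
    obtain ⟨H, H', hH'⟩ := ih
    obtain ⟨H'', hH''⟩ := step (j + 1) H' (by
      have h4 : D (j + 1) * H' = δ • (1 : Matrix (Fin (n (j + 1))) (Fin (n (j + 1))) R) - H * D j := by
        rw [← hH']; abel
      rw [Matrix.mul_sub, ← Matrix.mul_assoc, h4, Matrix.sub_mul, Matrix.mul_assoc, hD]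
      simp)
    exact ⟨H', H'', hH''⟩

/-- After base change, `φ δ` kills the homology modulo every ideal. -/
theorem killMod_of_kill (n : ℕ → ℕ) (D : ∀ i, Matrix (Fin (n i)) (Fin (n (i + 1))) R)
    (hD : ∀ i, D i * D (i + 1) = 0) (hex : ∀ j, ExactAt n D j) (φ : R →+* A) (δ : R)
    (h0 : ∀ a : Fin (n 0) → R, ∃ u : Fin (n 1) → R, D 0 *ᵥ u = δ • a) (I : Ideal A) (j : ℕ) :
    KillMod n (fun i => (D i).map φ) I (φ δ) j := by
  obtain ⟨H, H', h⟩ := homotopy n D hD hex δ h0 j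
  intro v hv
  refine ⟨(H'.map φ) *ᵥ v, fun i => ?_⟩
  have h1 : (D (j + 1)).map φ * H'.map φ + H.map φ * (D j).map φ
      = (φ δ) • (1 : Matrix (Fin (n (j + 1))) (Fin (n (j + 1))) A) := by
    have h2 := congrArg (fun M : Matrix (Fin (n (j + 1))) (Fin (n (j + 1))) R => M.map φ) h
    rw [Matrix.map_add φ (fun a b => map_add φ a b), Matrix.map_mul, Matrix.map_mul] at h2
    rw [h2]
    ext a b
    by_cases hab : a = b
    · subst hab; simp
    · simp [Matrix.one_apply_ne hab]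
  have h3 : φ δ * v i - ((D (j + 1)).map φ *ᵥ (H'.map φ *ᵥ v)) i = (H.map φ *ᵥ ((D j).map φ *ᵥ v)) i := by
    have h4 := congrArg (fun M : Matrix (Fin (n (j + 1))) (Fin (n (j + 1))) A => (M *ᵥ v) i) h1
    simp only [Matrix.add_mulVec, Matrix.smul_mulVec, Matrix.one_mulVec, Pi.add_apply, Pi.smul_apply, smul_eq_mul] at h4
    rw [Matrix.mulVec_mulVec, Matrix.mulVec_mulVec, ← h4]
    ring
  show φ δ * v i - ((D (j + 1)).map φ *ᵥ (H'.map φ *ᵥ v)) i ∈ I
  rw [h3]
  exact mulVec_mem_ideal _ I _ hv i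

/-- The elements which kill the homology modulo `I` form an ideal. -/
theorem killMod_of_mem_span (n : ℕ → ℕ) (D : ∀ i, Matrix (Fin (n i)) (Fin (n (i + 1))) A) (I : Ideal A) (j : ℕ)
    (S : Set A) (hS : ∀ z ∈ S, KillMod n D I z j) (z : A) (hz : z ∈ Ideal.span S ⊔ I) : KillMod n D I z j := by
  obtain ⟨a, ha, b, hb, rfl⟩ := Submodule.mem_sup.1 hz
  have h1 : KillMod n D I a j := by
    refine Submodule.span_induction (p := fun a _ => KillMod n D I a j) (fun x hx => hS x hx) ?_ ?_ ?_ ha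
    · intro v _
      refine ⟨0, fun i => ?_⟩
      simp
    · intro x y _ _ hx hy v hv
      obtain ⟨u, hu⟩ := hx v hv
      obtain ⟨w, hw⟩ := hy v hv
      refine ⟨u + w, fun i => ?_⟩
      have h2 : (x + y) * v i - (D (j + 1) *ᵥ (u + w)) i
          = (x * v i - (D (j + 1) *ᵥ u) i) + (y * v i - (D (j + 1) *ᵥ w) i) := by
        rw [Matrix.mulVec_add, Pi.add_apply]; ring
      rw [h2]
      exact I.add_mem (hu i) (hw i)
    · intro c x _ hx v hv
      obtain ⟨u, hu⟩ := hx v hv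
      refine ⟨c • u, fun i => ?_⟩
      have h2 : (c • x) * v i - (D (j + 1) *ᵥ (c • u)) i = c * (x * v i - (D (j + 1) *ᵥ u) i) := by
        rw [Matrix.mulVec_smul, Pi.smul_apply, smul_eq_mul, smul_eq_mul]; ring
      rw [h2]
      exact I.mul_mem_left _ (hu i)
  intro v hv
  obtain ⟨u, hu⟩ := h1 v hv
  refine ⟨u, fun i => ?_⟩
  have h2 : (a + b) * v i - (D (j + 1) *ᵥ u) i = (a * v i - (D (j + 1) *ᵥ u) i) + b * v i := by ring
  rw [h2]
  exact I.add_mem (hu i) (I.mul_mem_right _ hb)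

end

end Pool.Agent.LibMJ36
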